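import Mathlib
import Pool.Agent.K1H42.HP.Stm

/-!
# Elementary facts on `D` and `br` (part NUM of project HP)
-/

set_option autoImplicit false

namespace Pool.Agent.K1H2.HP

open Finset Pool.Agent.K1H42.HP

/-- the factor of index `i` -/
noncomputable def fac (q n k i : ℕ) : ℝ := ((q : ℝ) ^ n - (q : ℝ) ^ i) / ((q : ℝ) ^ k - (q : ℝ) ^ i)

lemma pow_sub_pos' {q m i : ℕ} (hq : 2 ≤ q) (h : i < m) : (0 : ℝ) < (q : ℝ) ^ m - (q : ℝ) ^ i := by
  have hq1 : (1 : ℝ) < q := by exact_mod_cast hq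
  exact sub_pos.2 (pow_lt_pow_right₀ hq1 h)

lemma fac_pos {q n k i : ℕ} (hq : 2 ≤ q) (hkn : k < n) (h : i < k) : 0 < fac q n k i :=
  div_pos (pow_sub_pos' hq (h.trans hkn)) (pow_sub_pos' hq h)

lemma D_succ {q n k s : ℕ} (h : s < k) : D q n k s = fac q n k s * D q n k (s + 1) := by
  unfold D
  rw [Finset.prod_eq_prod_Ico_succ_bot h]
  rfl

lemma D_pos {q n k : ℕ} (hq : 2 ≤ q) (hkn : k < n) (s : ℕ) : 0 < D q n k s :=
  Finset.prod_pos fun i hi => fac_pos hq hkn (Finset.mem_Ico.1 hi).2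

lemma fac_ge {q n k i : ℕ} (hq : 2 ≤ q) (hkn : k < n) (h : i < k) :
    (q : ℝ) ^ (n - k) ≤ fac q n k i := by
  have hq1 : (1 : ℝ) ≤ q := by exact_mod_cast (by omega : 1 ≤ q)
  unfold fac
  rw [le_div_iff₀ (pow_sub_pos' hq h)]
  have h1 : (q : ℝ) ^ n = (q : ℝ) ^ (n - k) * (q : ℝ) ^ k := by
    rw [← pow_add]; congr 1; omega
  have h2 : (q : ℝ) ^ i ≤ (q : ℝ) ^ (n - k) * (q : ℝ) ^ i := by
    have h3 : (1 : ℝ) ≤ (q : ℝ) ^ (n - k) := one_le_pow₀ hq1
    have h4 : (0 : ℝ) ≤ (q : ℝ) ^ i := by positivity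
    nlinarith
  rw [h1]
  nlinarith

lemma fac_le {q n k i : ℕ} (hq : 2 ≤ q) (hkn : k < n) (h : i < k) :
    fac q n k i ≤ 2 * (q : ℝ) ^ (n - k) := by
  have hq1 : (1 : ℝ) ≤ q := by exact_mod_cast (by omega : 1 ≤ q)
  have hq2 : (2 : ℝ) ≤ q := by exact_mod_cast hq
  unfold fac
  rw [div_le_iff₀ (pow_sub_pos' hq h)]
  have h1 : (q : ℝ) ^ n = (q : ℝ) ^ (n - k) * (q : ℝ) ^ k := by
    rw [← pow_add]; congr 1; omega
  have h2 : 2 * ((q : ℝ) ^ (n - k) * (q : ℝ) ^ i) ≤ (q : ℝ) ^ n := by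
    calc 2 * ((q : ℝ) ^ (n - k) * (q : ℝ) ^ i) ≤ q * ((q : ℝ) ^ (n - k) * (q : ℝ) ^ i) :=
          mul_le_mul_of_nonneg_right hq2 (by positivity)
      _ = (q : ℝ) ^ (n - k + i + 1) := by rw [pow_succ, pow_add]; ring
      _ ≤ (q : ℝ) ^ n := pow_le_pow_right₀ hq1 (by omega)
  have h3 : (0 : ℝ) ≤ (q : ℝ) ^ i := by positivity
  rw [h1] at h2 ⊢
  nlinarith

theorem t_NUM : S_NUM := by
  intro q n k hq hk hkn
  have hq1 : (1 : ℝ) ≤ q := by exact_mod_cast (by omega : 1 ≤ q)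
  have hq2 : (2 : ℝ) ≤ q := by exact_mod_cast hq
  have hbr : ∀ m, br q m * ((q : ℝ) - 1) = (q : ℝ) ^ m - 1 := fun m => geom_sum_mul _ _
  refine ⟨D_pos hq hkn, fun s hs => ?_, fun s t hst htk => ?_, fun s hs => ?_, hbr, fun m => ?_,
    fun m => ?_⟩
  · rw [D_succ hs]
    unfold fac
    have := (pow_sub_pos' hq hs).ne'
    field_simp
  · induction t, hst using Nat.le_induction with
    | base => simp
    | succ t hst ih =>
      have h1 := ih (by omega)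
      have h2 : (q : ℝ) ^ (n - k) * D q n k (t + 1) ≤ D q n k t := by
        rw [D_succ (show t < k by omega)]
        exact mul_le_mul_of_nonneg_right (fac_ge hq hkn (by omega)) (D_pos hq hkn _).le
      have h3 : (q : ℝ) ^ ((t + 1 - s) * (n - k)) =
          (q : ℝ) ^ ((t - s) * (n - k)) * (q : ℝ) ^ (n - k) := by
        rw [← pow_add]; congr 1
        have : t + 1 - s = (t - s) + 1 := by omega
        rw [this]; ring
      rw [h3, mul_assoc]
      exact (mul_le_mul_of_nonneg_left h2 (by positivity)).trans h1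
  · rw [D_succ hs]
    exact mul_le_mul_of_nonneg_right (fac_le hq hkn hs) (D_pos hq hkn _).le
  · have h1 := hbr m
    have h2 : 0 ≤ br q m := Finset.sum_nonneg fun i _ => by positivity
    nlinarith
  · exact Finset.sum_range_succ _ _

end Pool.Agent.K1H2.HP
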